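import Mathlib
import Pool.Agent.Q36.SunPhi.F1
import Pool.Agent.Q36.SunPhi.F2
import Pool.Agent.Q36.SunPhi.F3
import Pool.Agent.Q36.SunPhi.F4
import Pool.Agent.Q36.SunPhi.F5
import Pool.Agent.Q36.SunPhi.F6
import Pool.Agent.Q36.SunPhi.F7
import Pool.Agent.Q36.SunPhi.F8
import Pool.Agent.Q36.SunPhi.F9
import Pool.Agent.Q36.SunPhi.F10
import Pool.Agent.Q36.SunPhi.F11
import Pool.Agent.Q36.SunPhi.F12
import Pool.Agent.Q36.SunPhi.F13
import Pool.Agent.Q36.SunPhi.F14

namespace Pool.Agent.Results.MP_aa6c6a_nt.Counterexample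

open Pool.Agent.Q36.SunPhi

/-- `a n` is the number of integers `k` with `0 < k < n` such that
`(k + 1) ^ φ(n - k) + k` is prime. -/
def a (n : ℕ) : ℕ :=
  ((Finset.Ioo 0 n).filter
    (fun k => Nat.Prime ((k + 1) ^ Nat.totient (n - k) + k))).card

lemma not_prime (m : ℕ) (h1 : 1 ≤ m) (h2 : m < 4722) : ¬ (val m).Prime := by
  by_cases h0 : dig D m = 0
  · skip
    by_cases b1 : m < 1915
    · exact e1 m (by omega) (by omega) h0
    by_cases b2 : m < 2356
    · exact e2 m (by omega) (by omega) h0
    by_cases b3 : m < 2620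
    · exact e3 m (by omega) (by omega) h0
    by_cases b4 : m < 2933
    · exact e4 m (by omega) (by omega) h0
    by_cases b5 : m < 3111
    · exact e5 m (by omega) (by omega) h0
    by_cases b6 : m < 3358
    · exact e6 m (by omega) (by omega) h0
    by_cases b7 : m < 3603
    · exact e7 m (by omega) (by omega) h0
    by_cases b8 : m < 3683
    · exact e8 m (by omega) (by omega) h0
    by_cases b9 : m < 3829
    · exact e9 m (by omega) (by omega) h0
    by_cases b10 : m < 3969
    · exact e10 m (by omega) (by omega) h0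
    by_cases b11 : m < 4115
    · exact e11 m (by omega) (by omega) h0
    by_cases b12 : m < 4333
    · exact e12 m (by omega) (by omega) h0
    by_cases b13 : m < 4476
    · exact e13 m (by omega) (by omega) h0
    by_cases b14 : m < 4722
    · exact e14 m (by omega) (by omega) h0
    omega
  · exact loopP_sound D 1 4721 tableOk m h1 (by omega) h0

/-- `n = 4722` is a counterexample: `a 4722 = 0`, so it is not true that `a n > 0` for
all `n > 1`. -/
theorem result : a 4722 = 0 ∧ ¬ ∀ n : ℕ, 1 < n → 0 < a n := by
  have h : a 4722 = 0 := by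
    unfold a
    rw [Finset.card_eq_zero, Finset.filter_eq_empty_iff]
    intro k hk
    rw [Finset.mem_Ioo] at hk
    have hv := val_eq (4722 - k) (by omega) (by omega)
    have hn := not_prime (4722 - k) (by omega) (by omega)
    rw [hv, show 4723 - (4722 - k) = k + 1 by omega,
      show 4722 - (4722 - k) = k by omega] at hn
    exact hn
  exact ⟨h, fun H => by have := H 4722 (by norm_num); omega⟩

end Pool.Agent.Results.MP_aa6c6a_nt.Counterexample
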